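import Mathlib
import Pool.Agent.H892.ZL.Stm

set_option autoImplicit false

namespace Pool.Agent.H32.ZL

open Pool.Agent.H892.ZL Matrix

theorem t_D6 : S_D6 := by
  intro F _ Y
  constructor
  · rintro ⟨L, hL⟩ a b hab
    set M : Matrix (Fin 4 ⊕ Fin 2) (Fin 4 ⊕ Fin 2) F :=
      (Matrix.fromRows L Y).submatrix id (finSumFinEquiv (m := 4) (n := 2)) with hM
    have hdet : M.det ≠ 0 := hL
    have h0 : Matrix.vecMul (Sum.elim (fun _ => (0 : F)) ![a, b]) M = 0 := by
      funext j
      simp only [Matrix.vecMul, dotProduct, Fintype.sum_sum_type, Sum.elim_inl, Sum.elim_inr,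
        zero_mul, Finset.sum_const_zero, zero_add, Fin.sum_univ_two, Matrix.cons_val_zero,
        Matrix.cons_val_one, Pi.zero_apply]
      exact hab _
    have h1 := Matrix.eq_zero_of_vecMul_eq_zero hdet h0
    have ha := congrFun h1 (Sum.inr 0)
    have hb := congrFun h1 (Sum.inr 1)
    exact ⟨ha, hb⟩
  · intro h
    have hli : LinearIndependent F (fun i : Fin 2 => Y i) := by
      have e : (fun i : Fin 2 => Y i) = ![Y 0, Y 1] := by
        funext i; fin_cases i <;> rfl
      rw [e, LinearIndependent.pair_iff]
      intro a b hab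
      apply h a b
      intro j
      have := congrFun hab j
      simpa using this
    set W := Submodule.span F (Set.range (fun i : Fin 2 => Y i)) with hW
    have hWf : Module.finrank F W = 2 := by
      rw [hW, finrank_span_eq_card hli]; rfl
    obtain ⟨C, hC⟩ := Submodule.exists_isCompl W
    have hCf : Module.finrank F C = 4 := by
      have := Submodule.finrank_add_eq_of_isCompl hC
      rw [hWf, Module.finrank_fin_fun] at this
      omega
    let c := Module.finBasisOfFinrankEq F C hCf
    let L : Matrix (Fin 4) (Fin 6) F := fun i => (c i : Fin 6 → F)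
    have hLli : LinearIndependent F (fun i : Fin 4 => L i) :=
      c.linearIndependent.map' C.subtype (Submodule.ker_subtype C)
    have hspan : Submodule.span F (Set.range (fun i : Fin 4 => L i)) ≤ C := by
      rw [Submodule.span_le]
      rintro _ ⟨i, rfl⟩
      exact (c i).2
    have hsum : LinearIndependent F (Sum.elim (fun i : Fin 4 => L i) (fun i : Fin 2 => Y i)) :=
      hLli.sum_type hli (hC.disjoint.symm.mono_left hspan)
    refine ⟨L, ?_⟩
    set M : Matrix (Fin 4 ⊕ Fin 2) (Fin 4 ⊕ Fin 2) F :=
      (Matrix.fromRows L Y).submatrix id (finSumFinEquiv (m := 4) (n := 2)) with hM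
    have hrows : LinearIndependent F (fun i => M i) := by
      have h2 := hsum.map' (LinearEquiv.funCongrLeft F F (finSumFinEquiv (m := 4) (n := 2))).toLinearMap
        (LinearEquiv.ker _)
      have e : (fun i => M i) = (LinearEquiv.funCongrLeft F F
          (finSumFinEquiv (m := 4) (n := 2))).toLinearMap ∘
          (Sum.elim (fun i : Fin 4 => L i) (fun i : Fin 2 => Y i)) := by
        funext i
        rcases i with i | i <;> rfl
      rw [e]
      exact h2
    have h3 : IsUnit M := Matrix.linearIndependent_rows_iff_isUnit.mp hrows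
    have h4 : IsUnit M.det := (Matrix.isUnit_iff_isUnit_det M).mp h3
    exact h4.ne_zero

end Pool.Agent.H32.ZL
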