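import Mathlib
import Pool.Agent.H892.ZL.Stm

set_option autoImplicit false

namespace Pool.Agent.H32.ZL

open Pool.Agent.H892.ZL Matrix MvPolynomial

theorem prop2_smul {n : ℕ} {u v : Fin n → ℂ} (h : Prop2 u v) (hv : v ≠ 0) :
    ∃ t : ℂ, u = t • v := by
  obtain ⟨j, hj⟩ := Function.ne_iff.mp hv
  simp only [Pi.zero_apply] at hj
  refine ⟨u j / v j, funext fun i => ?_⟩
  have h1 := h i j
  simp only [Pi.smul_apply, smul_eq_mul]
  field_simp
  exact h1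

theorem prop2_smul' {n : ℕ} {u v : Fin n → ℂ} (h : Prop2 u v) (hv : v ≠ 0) (hu : u ≠ 0) :
    ∃ t : ℂ, t ≠ 0 ∧ u = t • v := by
  obtain ⟨t, ht⟩ := prop2_smul h hv
  refine ⟨t, ?_, ht⟩
  rintro rfl
  exact hu (by rw [ht, zero_smul])

theorem eval_gp (x y : Fin 3 → ℂ) (I : Fin 6) : eval (pt x y) (gp I) = aff x y I := by
  fin_cases I <;> simp [gp, aff, plu, pt]

theorem eval_agp (A : MvPolynomial (Fin 6) ℂ) (x y : Fin 3 → ℂ) :
    eval (pt x y) (aeval gp A) = eval (aff x y) A := by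
  induction A using MvPolynomial.induction_on with
  | C a => simp
  | add p q hp hq => rw [map_add, map_add, map_add, hp, hq]
  | mul_X p n hp => rw [map_mul, map_mul, map_mul, hp, aeval_X, eval_gp, eval_X]

theorem eval_kap (K : MvPolynomial (Fin 6) ℂ) (x y : Fin 3 → ℂ) :
    eval (pt x y) (kap K) = eval (aff x y) K := eval_agp K x y

theorem eval_Gp (v : Fin 6 → ℂ) : eval v Gp = v 0 * v 5 - v 1 * v 4 + v 2 * v 3 := by
  unfold Gp
  simp

theorem eval_Gp_aff (x y : Fin 3 → ℂ) : eval (aff x y) Gp = 0 := by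
  rw [eval_Gp]
  simp [aff, plu]
  ring

theorem eval_lin (M : Matrix (Fin 6) (Fin 6) ℂ) (a : Fin 6) (x y : Fin 3 → ℂ) :
    eval (pt x y) (∑ I, C (M a I) * gp I) = (M *ᵥ aff x y) a := by
  rw [map_sum]
  simp only [map_mul, eval_C, eval_gp, Matrix.mulVec, dotProduct]

theorem aff_smul (x y : Fin 3 → ℂ) (t : ℂ) : aff x (t • y) = t • aff x y := by
  funext i
  fin_cases i <;> simp [aff, plu] <;> ring

theorem eval_hom {K : MvPolynomial (Fin 6) ℂ} {n : ℕ} (hK : K.IsHomogeneous n) (t : ℂ)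
    (v : Fin 6 → ℂ) : eval (t • v) K = t ^ n * eval v K := by
  rw [eval_eq', eval_eq', Finset.mul_sum]
  refine Finset.sum_congr rfl fun d hd => ?_
  have h1 : ∑ i, d i = n := by
    have h2 := hK (mem_support_iff.mp hd)
    rw [← h2, Finsupp.weight_apply, Finsupp.sum_fintype]
    · simp
    · simp
  simp only [Pi.smul_apply, smul_eq_mul, mul_pow, Finset.prod_mul_distrib]
  rw [Finset.prod_pow_eq_pow_sum, h1]
  ring

theorem Gp_hom2 : Gp.IsHomogeneous 2 := by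
  unfold Gp
  exact ((((isHomogeneous_X ℂ (0 : Fin 6)).mul (isHomogeneous_X ℂ (5 : Fin 6)))).sub
    ((isHomogeneous_X ℂ (1 : Fin 6)).mul (isHomogeneous_X ℂ (4 : Fin 6)))).add
    ((isHomogeneous_X ℂ (2 : Fin 6)).mul (isHomogeneous_X ℂ (3 : Fin 6)))

theorem cone_smul {K : MvPolynomial (Fin 6) ℂ} (hK : K.IsHomogeneous 3) {v : Fin 6 → ℂ} {t : ℂ}
    (ht : t ≠ 0) (hv : v ∈ Cone K) : t • v ∈ Cone K := by
  obtain ⟨h1, h2, h3⟩ := hv
  refine ⟨smul_ne_zero ht h1, ?_, ?_⟩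
  · rw [eval_hom Gp_hom2, h2, mul_zero]
  · rw [eval_hom hK, h3, mul_zero]

/-- the part of the cone in the chart -/
def Zk (K : MvPolynomial (Fin 6) ℂ) (v : Fin 6 → ℂ) : Prop :=
  ∃ x y : Fin 3 → ℂ, y ≠ 0 ∧ eval (pt x y) (kap K) = 0 ∧ v = aff x y

/-- the chart -/
def Ch (j : Fin 6) : Prop := j = 2 ∨ j = 4 ∨ j = 5

theorem aff_chart {x y : Fin 3 → ℂ} (hy : y ≠ 0) : ∃ j, Ch j ∧ aff x y j ≠ 0 := by
  obtain ⟨i, hi⟩ := Function.ne_iff.mp hy
  simp only [Pi.zero_apply] at hi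
  fin_cases i
  · exact ⟨2, Or.inl rfl, by simpa [aff, plu] using hi⟩
  · exact ⟨4, Or.inr (Or.inl rfl), by simpa [aff, plu] using hi⟩
  · exact ⟨5, Or.inr (Or.inr rfl), by simpa [aff, plu] using hi⟩

theorem zk_cone {K : MvPolynomial (Fin 6) ℂ} {v : Fin 6 → ℂ} (h : Zk K v) : v ∈ Cone K := by
  obtain ⟨x, y, hy, h0, rfl⟩ := h
  obtain ⟨j, -, hj⟩ := aff_chart (x := x) hy
  refine ⟨?_, eval_Gp_aff x y, ?_⟩
  · intro h1; exact hj (by rw [h1]; rfl)
  · rw [← eval_kap]; exact h0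

theorem zk_chart {K : MvPolynomial (Fin 6) ℂ} {v : Fin 6 → ℂ} (h : Zk K v) :
    ∃ j, Ch j ∧ v j ≠ 0 := by
  obtain ⟨x, y, hy, -, rfl⟩ := h
  exact aff_chart hy

theorem cone_zk (h4 : S_DECA) {K : MvPolynomial (Fin 6) ℂ} {v : Fin 6 → ℂ} (h : v ∈ Cone K)
    {j : Fin 6} (hj : Ch j) (hvj : v j ≠ 0) : Zk K v := by
  obtain ⟨x, y, hy, hv⟩ := h4 ℂ v (by
    rcases hj with rfl | rfl | rfl
    · exact Or.inl hvj
    · exact Or.inr (Or.inl hvj)
    · exact Or.inr (Or.inr hvj)) (by rw [← eval_Gp]; exact h.2.1)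
  refine ⟨x, y, hy, ?_, hv⟩
  rw [eval_kap, ← hv]
  exact h.2.2

/-- a product vanishing on the threefold: one of the factors vanishes on it -/
theorem prime_zk (h1 : S_IRR) (h2 : S_NULL) {K : MvPolynomial (Fin 6) ℂ} (hK : Good K)
    (A B : SA) (h : ∀ x y : Fin 3 → ℂ, y ≠ 0 → eval (pt x y) (kap K) = 0 →
      eval (pt x y) A * eval (pt x y) B = 0) : kap K ∣ A ∨ kap K ∣ B := by
  apply (h1 K hK).dvd_or_dvd
  apply h2 K hK (h1 K hK)
  intro x y hy h0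
  rw [map_mul]
  exact h x y hy h0

theorem dvd_zero {K : MvPolynomial (Fin 6) ℂ} {A : SA} (h : kap K ∣ A) {x y : Fin 3 → ℂ}
    (h0 : eval (pt x y) (kap K) = 0) : eval (pt x y) A = 0 := by
  obtain ⟨Q, rfl⟩ := h
  rw [map_mul, h0, zero_mul]

theorem eval_line (x y : Fin 3 → ℂ) (t : ℂ) (Q : SA) :
    Polynomial.eval t (aeval (Sum.elim (fun i => Polynomial.C (x i))
      (fun i => Polynomial.C (y i) * Polynomial.X)) Q) = eval (pt x (t • y)) Q := by
  induction Q using MvPolynomial.induction_on with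
  | C a => simp
  | add p q hp hq => rw [map_add, map_add, Polynomial.eval_add, hp, hq]
  | mul_X p n hp =>
    rw [map_mul, map_mul, Polynomial.eval_mul, hp, aeval_X, eval_X]
    congr 1
    rcases n with i | i
    · simp [pt]
    · show Polynomial.eval t (Polynomial.C (y i) * Polynomial.X) = t * y i
      rw [Polynomial.eval_mul, Polynomial.eval_C, Polynomial.eval_X, mul_comm]

/-- a polynomial of degree `2` in `y` divisible by `kap K` vanishes -/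
theorem deg_two {K : MvPolynomial (Fin 6) ℂ} (hK : K.IsHomogeneous 3) {A : SA}
    (hA : ∀ (x y : Fin 3 → ℂ) (t : ℂ), eval (pt x (t • y)) A = t ^ 2 * eval (pt x y) A)
    (h : kap K ∣ A) : A = 0 := by
  obtain ⟨Q, hQ⟩ := h
  apply MvPolynomial.funext
  intro z
  have hz : z = pt (fun i => z (Sum.inl i)) (fun i => z (Sum.inr i)) := by
    funext i
    rcases i with i | i <;> rfl
  rw [hz, map_zero]
  generalize (fun i => z (Sum.inl i)) = x
  generalize (fun i => z (Sum.inr i)) = y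
  let q : Polynomial ℂ := aeval (Sum.elim (fun i => Polynomial.C (x i))
    (fun i => Polynomial.C (y i) * Polynomial.X)) Q
  have hq : ∀ t : ℂ, q.eval t = eval (pt x (t • y)) Q := fun t => eval_line x y t Q
  have hr : Polynomial.C (eval (pt x y) A) -
      Polynomial.X * (Polynomial.C (eval (pt x y) (kap K)) * q) = 0 := by
    apply Polynomial.eq_zero_of_infinite_isRoot
    apply Set.Infinite.mono (s := {t : ℂ | t ≠ 0})
    · intro t ht
      simp only [Set.mem_ofPred_eq] at ht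
      simp only [Set.mem_ofPred_eq, Polynomial.IsRoot.def, Polynomial.eval_sub, Polynomial.eval_C,
        Polynomial.eval_mul, Polynomial.eval_X]
      rw [hq]
      have e1 := hA x y t
      rw [hQ, map_mul, eval_kap, aff_smul, eval_hom hK, ← eval_kap] at e1
      have e2 : t ^ 2 * (eval (pt x y) A - t * (eval (pt x y) (kap K) *
          eval (pt x (t • y)) Q)) = 0 := by
        rw [mul_sub, hQ, ← e1]; ring
      exact (mul_eq_zero.mp e2).resolve_left (pow_ne_zero 2 ht)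
    · have : {t : ℂ | t ≠ 0} = ({0} : Set ℂ)ᶜ := by ext; simp
      rw [this]
      exact (Set.finite_singleton (0 : ℂ)).infinite_compl
  have h0 := congrArg (Polynomial.eval 0) hr
  simpa using h0

theorem t_INV (h1 : S_IRR) (h2 : S_NULL) (h4 : S_DECA) (h5 : S_SCAL) : S_INV := by
  intro K K' Φ Ψ hK hK' hI T T' hT hT0 hT' hT0'
  obtain ⟨x₀, y₀, hy₀, hk₀, hch₀⟩ := hT0
  obtain ⟨x₀', y₀', hy₀', hk₀', hch₀'⟩ := hT0'
  have hj₀ : ∃ j, Ch j ∧ (T *ᵥ aff x₀ y₀) j ≠ 0 := by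
    rcases hch₀ with h | h | h
    · exact ⟨2, Or.inl rfl, h⟩
    · exact ⟨4, Or.inr (Or.inl rfl), h⟩
    · exact ⟨5, Or.inr (Or.inr rfl), h⟩
  have hj₀' : ∃ j, Ch j ∧ (T' *ᵥ aff x₀' y₀') j ≠ 0 := by
    rcases hch₀' with h | h | h
    · exact ⟨2, Or.inl rfl, h⟩
    · exact ⟨4, Or.inr (Or.inl rfl), h⟩
    · exact ⟨5, Or.inr (Or.inr rfl), h⟩
  obtain ⟨j, hjc, hj⟩ := hj₀
  obtain ⟨j', hjc', hj'⟩ := hj₀'
  have hTz : ∀ v, Zk K v → Prop2 (T *ᵥ v) (Φ v) := by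
    rintro v ⟨x, y, hy, h0, rfl⟩
    exact hT x y hy h0
  have hTz' : ∀ v, Zk K' v → Prop2 (T' *ᵥ v) (Ψ v) := by
    rintro v ⟨x, y, hy, h0, rfl⟩
    exact hT' x y hy h0
  -- the image of a point of the chart in the chart
  have himg : ∀ v, Zk K v → (T *ᵥ v) j ≠ 0 → Zk K' (T *ᵥ v) ∧
      ∃ t : ℂ, t ≠ 0 ∧ Ψ (T *ᵥ v) = t • v := by
    intro v hv hvj
    have hvC := zk_cone hv
    have hΦ := hI.maps v hvC
    have hne : T *ᵥ v ≠ 0 := fun h => hvj (by rw [h]; rfl)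
    obtain ⟨t, ht, hte⟩ := prop2_smul' (hTz v hv) hΦ.1 hne
    have hC : T *ᵥ v ∈ Cone K' := by rw [hte]; exact cone_smul hK'.hom ht hΦ
    refine ⟨cone_zk h4 hC hjc hvj, ?_⟩
    have hΨ := hI.maps' _ hC
    have hΨΦ := hI.maps' _ hΦ
    have e1 : Prop2 (Ψ (T *ᵥ v)) (Ψ (Φ v)) := by
      rw [hte]; exact hI.compat' _ hΦ t ht
    obtain ⟨s, hs, hse⟩ := prop2_smul' e1 hΨΦ.1 hΨ.1
    obtain ⟨r, hr, hre⟩ := prop2_smul' (hI.inv v hvC) hvC.1 hΨΦ.1
    exact ⟨s * r, mul_ne_zero hs hr, by rw [hse, hre, smul_smul]⟩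
  -- first part
  obtain ⟨c, hc⟩ : ∃ c : ℂ, T' * T = c • (1 : Matrix (Fin 6) (Fin 6) ℂ) := by
    apply h5
    intro a b
    have hdvd := prime_zk h1 h2 hK (∑ I, C (T j I) * gp I)
      ((∑ I, C ((T' * T) a I) * gp I) * gp b - (∑ I, C ((T' * T) b I) * gp I) * gp a) (by
        intro x y hy h0
        rw [eval_lin, map_sub, map_mul, map_mul, eval_lin, eval_lin, eval_gp, eval_gp]
        rcases eq_or_ne ((T *ᵥ aff x y) j) 0 with hz | hz
        · rw [hz, zero_mul]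
        · obtain ⟨hZ, t, ht, hte⟩ := himg (aff x y) ⟨x, y, hy, h0, rfl⟩ hz
          obtain ⟨u, hu⟩ := prop2_smul (hTz' _ hZ) (hI.maps' _ (zk_cone hZ)).1
          rw [← Matrix.mulVec_mulVec, hu, hte]
          simp only [Pi.smul_apply, smul_eq_mul]
          ring)
    rcases hdvd with hd | hd
    · exfalso
      have := dvd_zero hd hk₀
      rw [eval_lin] at this
      exact hj this
    · have hz := deg_two hK.hom (fun x y t => by
        rw [map_sub, map_mul, map_mul, eval_lin, eval_lin, eval_gp, eval_gp, map_sub, map_mul,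
          map_mul, eval_lin, eval_lin, eval_gp, eval_gp, aff_smul, Matrix.mulVec_smul]
        simp only [Pi.smul_apply, smul_eq_mul]
        ring) hd
      exact sub_eq_zero.mp hz
  refine ⟨c, ?_, hc⟩
  rintro rfl
  rw [zero_smul] at hc
  -- a representation of the inverse near the image of the first point
  have hv₀ : Zk K (aff x₀ y₀) := ⟨x₀, y₀, hy₀, hk₀, rfl⟩
  obtain ⟨hw₀, t₀, ht₀, hte₀⟩ := himg _ hv₀ hj
  obtain ⟨xw, yw, hyw, hkw, hwe⟩ := hw₀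
  have hwC : T *ᵥ aff x₀ y₀ ∈ Cone K' := zk_cone ⟨xw, yw, hyw, hkw, hwe⟩
  obtain ⟨d, g, ⟨-, hrep⟩, i, hi⟩ := hI.rep' _ hwC
  obtain ⟨i₁, hi₁c, hi₁⟩ := zk_chart hv₀
  have hG0 : (fun i => eval (T *ᵥ aff x₀ y₀) (g i)) ≠ 0 := fun h => hi (congrFun h i)
  obtain ⟨s, hs, hse⟩ := prop2_smul' (hrep _ hwC ⟨i, hi⟩) (hI.maps' _ hwC).1 hG0
  rw [hte₀, smul_smul] at hse
  -- the two polynomials
  have hex : ∃ x y : Fin 3 → ℂ, y ≠ 0 ∧ eval (pt x y) (kap K') = 0 ∧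
      eval (aff x y) (g i₁) ≠ 0 ∧ (T *ᵥ (fun I => eval (aff x y) (g I))) j ≠ 0 ∧
      (T' *ᵥ aff x y) j' ≠ 0 := by
    by_contra hcon
    have hev : ∀ x y : Fin 3 → ℂ, eval (pt x y) (∑ I, C (T j I) * aeval gp (g I)) =
        (T *ᵥ (fun I => eval (aff x y) (g I))) j := by
      intro x y
      rw [map_sum]
      simp only [map_mul, eval_C, eval_agp, Matrix.mulVec, dotProduct]
    have hdvd := prime_zk h1 h2 hK' (aeval gp (g i₁) * (∑ I, C (T j I) * aeval gp (g I)))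
      (∑ I, C (T' j' I) * gp I) (by
        intro x y hy h0
        rw [map_mul, eval_lin, hev, eval_agp]
        by_contra hne
        apply hcon
        refine ⟨x, y, hy, h0, ?_, ?_, ?_⟩
        · intro h; apply hne; rw [h]; ring
        · intro h; apply hne; rw [h]; ring
        · intro h; apply hne; rw [h]; ring)
    rcases hdvd with hd | hd
    · have h3 := dvd_zero hd hkw
      rw [map_mul, hev, eval_agp, ← hwe, hse, Matrix.mulVec_smul] at h3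
      have h4' : eval (T *ᵥ aff x₀ y₀) (g i₁) = (s * t₀) * aff x₀ y₀ i₁ := by
        have := congrFun hse i₁
        simpa using this
      rw [h4'] at h3
      simp only [Pi.smul_apply, smul_eq_mul] at h3
      rcases mul_eq_zero.mp h3 with h5' | h5'
      · exact (mul_ne_zero (mul_ne_zero hs ht₀) hi₁) h5'
      · exact (mul_ne_zero (mul_ne_zero hs ht₀) hj) h5'
    · have h3 := dvd_zero hd hk₀'
      rw [eval_lin] at h3
      exact hj' h3
  obtain ⟨x₁, y₁, hy₁, hk₁, ha, hb, hcc⟩ := hex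
  have hw₁ : Zk K' (aff x₁ y₁) := ⟨x₁, y₁, hy₁, hk₁, rfl⟩
  have hw₁C := zk_cone hw₁
  have hG1 : (fun i => eval (aff x₁ y₁) (g i)) ≠ 0 := fun h => ha (congrFun h i₁)
  have hΨ1 := hI.maps' _ hw₁C
  obtain ⟨s₁, hs₁, hse₁⟩ := prop2_smul' (hrep _ hw₁C ⟨i₁, ha⟩) hΨ1.1 hG1
  have hv₁C : (fun i => eval (aff x₁ y₁) (g i)) ∈ Cone K := by
    rw [hse₁]; exact cone_smul hK.hom hs₁ hΨ1
  have hv₁ : Zk K (fun i => eval (aff x₁ y₁) (g i)) := cone_zk h4 hv₁C hi₁c ha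
  have hne1 : T *ᵥ (fun i => eval (aff x₁ y₁) (g i)) ≠ 0 := fun h => hb (by rw [h]; rfl)
  have hΦ1 := hI.maps _ hv₁C
  obtain ⟨r₁, hr₁, hre₁⟩ := prop2_smul' (hTz _ hv₁) hΦ1.1 hne1
  have hΦΨ := hI.maps _ hΨ1
  have e1 : Prop2 (Φ (fun i => eval (aff x₁ y₁) (g i))) (Φ (Ψ (aff x₁ y₁))) := by
    rw [hse₁]; exact hI.compat _ hΨ1 s₁ hs₁
  obtain ⟨r₂, hr₂, hre₂⟩ := prop2_smul' e1 hΦΨ.1 hΦ1.1
  obtain ⟨r₃, hr₃, hre₃⟩ := prop2_smul' (hI.inv' _ hw₁C) hw₁C.1 hΦΨ.1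
  have hfin : T' *ᵥ (T *ᵥ (fun i => eval (aff x₁ y₁) (g i))) = 0 := by
    rw [Matrix.mulVec_mulVec, hc, Matrix.zero_mulVec]
  rw [hre₁, hre₂, hre₃, smul_smul, smul_smul, Matrix.mulVec_smul] at hfin
  have h6 := congrFun hfin j'
  simp only [Pi.smul_apply, smul_eq_mul, Pi.zero_apply] at h6
  exact (mul_ne_zero (mul_ne_zero (mul_ne_zero hr₁ hr₂) hr₃) hcc) h6

end Pool.Agent.H32.ZL
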